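import Mathlib
import Pool.Agent.H48.BB

set_option autoImplicit false

namespace Pool.Agent.Results.MP_7bf690_al.Yes

open scoped TensorProduct

/-- Centrally essential rings. -/
def CentrallyEssential (R : Type) [Ring R] : Prop :=
  ∀ a : R, a ≠ 0 → ∃ c ∈ Subring.center R, ∃ d ∈ Subring.center R, c ≠ 0 ∧ d ≠ 0 ∧ a * c = d

/-- Torsion-free abelian groups. -/
def TorsionFree (A : Type) [AddCommGroup A] : Prop := ∀ (n : ℤ) (x : A), n ≠ 0 → n • x = 0 → x = 0

/-- Strongly indecomposable groups. -/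
def StronglyIndecomposable (A : Type) [AddCommGroup A] : Prop :=
  Nontrivial A ∧ ∀ (B C : AddSubgroup A) (n : ℕ), 0 < n → Disjoint B C → (∀ a, n • a ∈ B ⊔ C) →
    B = ⊥ ∨ C = ⊥

open Pool.Agent.H48.BB

/-- The algebra with basis `1, x, y, t, x t = x y, y t`. -/
def S := Fin 6 → ℚ

instance : AddCommGroup S := Pi.addCommGroup
instance : Module ℚ S := Pi.module _ _ _

instance : Mul S := ⟨fun a b => ![a 0 * b 0, a 0 * b 1 + a 1 * b 0,
  a 0 * b 2 + a 2 * b 0, a 0 * b 3 + a 3 * b 0,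
  a 0 * b 4 + a 4 * b 0 + a 1 * b 3 + a 3 * b 1 + a 1 * b 2,
  a 0 * b 5 + a 5 * b 0 + a 2 * b 3 + a 3 * b 2]⟩

/-- Constructor. -/
def mk (a b c d e f : ℚ) : S := ![a, b, c, d, e, f]

theorem ext {a b : S} (h0 : a 0 = b 0) (h1 : a 1 = b 1) (h2 : a 2 = b 2) (h3 : a 3 = b 3)
    (h4 : a 4 = b 4) (h5 : a 5 = b 5) : a = b := by
  funext i
  fin_cases i <;> assumption

instance : One S := ⟨mk 1 0 0 0 0 0⟩

theorem one_def : (1 : S) = mk 1 0 0 0 0 0 := rfl

section
variable (a b : S) (p q r s t u : ℚ)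
@[simp] theorem m0 : (a * b) 0 = a 0 * b 0 := rfl
@[simp] theorem m1 : (a * b) 1 = a 0 * b 1 + a 1 * b 0 := rfl
@[simp] theorem m2 : (a * b) 2 = a 0 * b 2 + a 2 * b 0 := rfl
@[simp] theorem m3 : (a * b) 3 = a 0 * b 3 + a 3 * b 0 := rfl
@[simp] theorem m4 : (a * b) 4 = a 0 * b 4 + a 4 * b 0 + a 1 * b 3 + a 3 * b 1 + a 1 * b 2 := rfl
@[simp] theorem m5 : (a * b) 5 = a 0 * b 5 + a 5 * b 0 + a 2 * b 3 + a 3 * b 2 := rfl
@[simp] theorem k0 : mk p q r s t u 0 = p := rfl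
@[simp] theorem k1 : mk p q r s t u 1 = q := rfl
@[simp] theorem k2 : mk p q r s t u 2 = r := rfl
@[simp] theorem k3 : mk p q r s t u 3 = s := rfl
@[simp] theorem k4 : mk p q r s t u 4 = t := rfl
@[simp] theorem k5 : mk p q r s t u 5 = u := rfl
@[simp] theorem add_ap (i : Fin 6) : (a + b) i = a i + b i := rfl
@[simp] theorem zero_ap (i : Fin 6) : (0 : S) i = 0 := rfl
@[simp] theorem smul_ap (r : ℚ) (i : Fin 6) : (r • a) i = r • a i := rfl
end

instance : Ring S where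
  left_distrib a b c := by apply ext <;> simp <;> ring
  right_distrib a b c := by apply ext <;> simp <;> ring
  zero_mul a := by apply ext <;> simp
  mul_zero a := by apply ext <;> simp
  mul_assoc a b c := by apply ext <;> simp <;> ring
  one_mul a := by apply ext <;> simp [one_def]
  mul_one a := by apply ext <;> simp [one_def]
  __ := (inferInstance : AddCommGroup S)

instance : Algebra ℚ S := Algebra.ofModule
  (fun r a b => by apply ext <;> simp <;> ring) (fun r a b => by apply ext <;> simp <;> ring)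

theorem cen {c : S} (h1 : c 1 = 0) (h2 : c 2 = 0) (b : S) : b * c = c * b := by
  apply ext <;> simp [h1, h2] <;> ring

/-- The lattice. -/
def L : AddSubgroup S := AddSubgroup.pi Set.univ fun _ => (⊥ : Subring ℚ).toAddSubgroup

theorem mem_L {s : S} : s ∈ L ↔ ∀ i, s i ∈ (⊥ : Subring ℚ) :=
  ⟨fun h i => h i trivial, fun h i _ => h i⟩

theorem L_mul {a b : S} (ha : a ∈ L) (hb : b ∈ L) : a * b ∈ L := by
  rw [mem_L] at ha hb ⊢
  have h := fun i j => mul_mem (ha i) (hb j)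
  intro i
  fin_cases i
  exacts [h 0 0, add_mem (h 0 1) (h 1 0), add_mem (h 0 2) (h 2 0), add_mem (h 0 3) (h 3 0),
    add_mem (add_mem (add_mem (add_mem (h 0 4) (h 4 0)) (h 1 3)) (h 3 1)) (h 1 2),
    add_mem (add_mem (add_mem (h 0 5) (h 5 0)) (h 2 3)) (h 3 2)]

theorem L_smul (n : ℕ) {p : ℕ} {a : S} (ha : a ∈ I L p) : (n : ℚ) • a ∈ I L p := by
  rw [Nat.cast_smul_eq_nsmul]
  exact nsmul_mem ha n

theorem sp (v : S) : ∃ N : ℕ, N ≠ 0 ∧ (N : ℚ) • v ∈ L := by
  refine ⟨∏ i, (v i).den, Finset.prod_ne_zero_iff.mpr fun i _ => (v i).den_ne_zero,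
    mem_L.mpr fun i => ?_⟩
  obtain ⟨c, hc⟩ := Finset.dvd_prod_of_mem (fun i => (v i).den) (Finset.mem_univ i)
  refine Subring.mem_bot.mpr ⟨(v i).num * c, ?_⟩
  rw [hc, smul_ap, smul_eq_mul, Int.cast_mul, ← Rat.mul_den_eq_num]
  push_cast
  ring

theorem mk_mem (a b c d e f : ℕ) : mk a b c d e f ∈ L := by
  refine mem_L.mpr fun i => ?_
  fin_cases i <;> simp

theorem one_mem : (1 : S) ∈ L := by simpa [one_def] using mk_mem 1 0 0 0 0 0

/-- The nilpotent basis vectors. -/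
def e (i : Fin 5) : S := Pi.single (M := fun _ => ℚ) i.succ 1

theorem e_mem (i : Fin 5) : e i ∈ L := mem_L.mpr fun j => by
  rw [e, Pi.single_apply]
  split_ifs <;> simp

theorem e_cube (i : Fin 5) : e i * (e i * e i) = 0 := by
  have : e i 0 = 0 := Pi.single_eq_of_ne (Fin.succ_ne_zero i).symm _
  apply ext <;> simp [this]

/-- The primes. -/
noncomputable def p (k : Fin 5 × ℕ) : ℕ := pr (.inl k)

theorem p0 (k : Fin 5 × ℕ) : (p k : ℚ) ≠ 0 := by exact_mod_cast (pr_prime _).ne_zero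

/-- The local twists. -/
noncomputable def w (k : Fin 5 × ℕ) : S := (p k : ℚ) • (p k : ℚ) • 1 - (p k : ℚ) • e k.1 + e k.1 * e k.1

theorem nat_mem (n : ℕ) {a : S} (ha : a ∈ L) : (n : ℚ) • a ∈ L := by
  rw [Nat.cast_smul_eq_nsmul]
  exact nsmul_mem ha n

theorem w_mem (k : Fin 5 × ℕ) : w k ∈ L :=
  add_mem (sub_mem (nat_mem _ (nat_mem _ one_mem)) (nat_mem _ (e_mem _)))
    (L_mul (e_mem _) (e_mem _))

/-- Vectors with prescribed local behaviour. -/
def gen {V K : Type} [AddCommGroup V] [Module ℚ V] (M : AddSubgroup V) (f : K → V →ₗ[ℚ] V)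
    (q : K → ℕ) : AddSubgroup V where
  carrier := {v | ∀ k, f k v ∈ I M (q k)}
  zero_mem' := fun k => by simp
  add_mem' := fun hv hw k => by rw [map_add]; exact add_mem (hv k) (hw k)
  neg_mem' := fun hv k => by rw [map_neg]; exact neg_mem (hv k)

/-- The group. -/
noncomputable def A := gen L (fun k => LinearMap.mulRight ℚ (w k)) p

theorem A_of {v : S} (h : v ∈ L) : v ∈ A := fun k => I_of _ (L_mul h (w_mem k))

theorem A_mul {s v : S} (h : s ∈ L) (hv : v ∈ A) : s * v ∈ A := fun k => by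
  obtain ⟨m, h1, h2⟩ := hv k
  exact ⟨m, h1, by rw [LinearMap.mulRight_apply, mul_assoc, ← mul_smul_comm]; exact L_mul h h2⟩

theorem v_mem (k : Fin 5 × ℕ) :
    (p k : ℚ)⁻¹ • (p k : ℚ)⁻¹ • (p k : ℚ)⁻¹ • ((p k : ℚ) • 1 + e k.1) ∈ A := fun l => by
  simp only [LinearMap.mulRight_apply, smul_mul_assoc]
  by_cases h : k = l
  · subst h
    have : ((p k : ℚ) • 1 + e k.1) * w k = (p k : ℚ) • (p k : ℚ) • (p k : ℚ) • 1 := by
      simp only [w, mul_add, mul_sub, add_mul, smul_mul_assoc, mul_smul_comm, one_mul, mul_one,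
        e_cube]
      module
    simp only [this, inv_smul_smul₀ (p0 k)]
    exact I_of _ one_mem
  · have h1 := pr_cop (Sum.inl_injective.ne h : (Sum.inl k : (Fin 5 × ℕ) ⊕ Fin 3) ≠ Sum.inl l)
    have h0 := (pr_prime (.inl k : (Fin 5 × ℕ) ⊕ Fin 3)).ne_zero
    exact I_div h0 h1 (I_div h0 h1 (I_div h0 h1 (I_of _
      (L_mul (add_mem (nat_mem _ one_mem) (e_mem _)) (w_mem l)))))

theorem inf {i : Fin 5} {x : S} (hx : x ∈ L) (h : ∀ j, (p (i, j) : ℚ)⁻¹ • x ∈ I L (p (i, j))) :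
    x = 0 := by
  funext l
  obtain ⟨z, hz⟩ := Subring.mem_bot.mp (mem_L.mp hx l)
  by_contra hc
  have hz0 : z.natAbs ≠ 0 := fun e => hc (by rw [← hz, Int.natAbs_eq_zero.mp e]; rfl)
  refine Set.infinite_of_injective_forall_mem (f := fun j => p (i, j)) (fun j j' e => ?_)
    (s := z.natAbs.divisors) (fun j => ?_) (Finset.finite_toSet _)
  · by_contra hne
    have h1 := pr_cop (K := Fin 5 × ℕ) (i := .inl (i, j)) (j := .inl (i, j')) (by simpa)
    exact (pr_prime _).ne_one ((Nat.coprime_self _).mp (by rwa [show pr _ = pr _ from e] at h1))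
  · obtain ⟨m, h1, h2⟩ := h j
    obtain ⟨y, hy⟩ := Subring.mem_bot.mp (mem_L.mp h2 l)
    have h3 : (m : ℚ) * z = p (i, j) * y := by
      rw [hy, hz, smul_ap, smul_ap, smul_eq_mul, smul_eq_mul]
      rw [mul_left_comm, mul_inv_cancel_left₀ (p0 _)]
    have h4 : (m : ℤ) * z = p (i, j) * y := by exact_mod_cast h3
    have h5 : p (i, j) ∣ m * z.natAbs := by
      simpa [Int.natAbs_mul] using Int.natAbs_dvd_natAbs.mpr (Dvd.intro _ h4.symm)
    exact Finset.mem_coe.mpr (Nat.mem_divisors.mpr ⟨h1.symm.dvd_of_dvd_mul_left h5, hz0⟩)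

theorem rigid {γ : Module.End ℚ S} (h : ∀ v ∈ A, γ v ∈ A) (h1 : γ 1 = 0) (i : Fin 5) :
    γ (e i) = 0 := by
  obtain ⟨N, h2, h3⟩ := sp (γ (e i))
  set m := (N : ℚ) • γ (e i) with hm
  have H : ∀ j, (p (i, j) : ℚ)⁻¹ • m - (p (i, j) : ℚ)⁻¹ • (p (i, j) : ℚ)⁻¹ • (m * e i) +
      (p (i, j) : ℚ)⁻¹ • (p (i, j) : ℚ)⁻¹ • (p (i, j) : ℚ)⁻¹ • (m * (e i * e i)) ∈
        I L (p (i, j)) := fun j => by
    have := L_smul N (h _ (v_mem (i, j)) (i, j))
    simp only [map_smul, map_add, h1, smul_zero, zero_add, LinearMap.mulRight_apply] at this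
    rw [smul_comm, smul_comm (N : ℚ), smul_comm (N : ℚ), ← smul_mul_assoc, ← hm] at this
    simpa only [w, mul_add, mul_sub, mul_smul_comm, mul_one, smul_add, smul_sub,
      inv_smul_smul₀ (p0 _)] using this
  have h4 := L_mul h3 (e_mem i)
  have h5 : m * (e i * e i) = 0 := inf (L_mul h3 (L_mul (e_mem i) (e_mem i))) fun j => by
    have := L_smul (p (i, j)) (L_smul (p (i, j)) (H j))
    simp only [smul_add, smul_sub, smul_inv_smul₀ (p0 _)] at this
    exact (add_mem_cancel_left (sub_mem (I_of _ (nat_mem _ h3)) (I_of _ h4))).mp this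
  have h6 : m * e i = 0 := inf h4 fun j => by
    have := L_smul (p (i, j)) (H j)
    simp only [h5, smul_zero, add_zero, smul_sub, smul_inv_smul₀ (p0 _)] at this
    simpa using sub_mem (I_of _ h3) this
  have h7 : m = 0 := inf h3 fun j => by simpa [h5, h6] using H j
  simpa [hm, h2] using h7

theorem ex0 (ψ : AddMonoid.End A) : ∃ s : S, ∀ x : A, (ψ x).1 = s * x := by
  let _ : DivisibleBy S ℤ := ⟨fun v n => (n : ℚ)⁻¹ • v, by simp, fun {n} v hn => by
    rw [← Int.cast_smul_eq_zsmul ℚ, smul_smul, mul_inv_cancel₀ (by exact_mod_cast hn), one_smul]⟩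
  obtain ⟨Ψ, h0⟩ := (Module.Baer.of_divisible S).extension_property_addMonoidHom
    A.subtype Subtype.val_injective (A.subtype.comp ψ)
  set α := Ψ.toRatLinearMap
  have h1 : ∀ x : A, α x = ψ x := fun x => DFunLike.congr_fun h0 x
  obtain ⟨N, h2, h3⟩ := sp (α 1)
  have h4 := rigid (γ := (N : ℚ) • (α - LinearMap.mulLeft ℚ (α 1))) (fun v hv => by
    simp only [LinearMap.smul_apply, LinearMap.sub_apply, LinearMap.mulLeft_apply, smul_sub]
    rw [← smul_mul_assoc, h1 ⟨v, hv⟩, Nat.cast_smul_eq_nsmul]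
    exact sub_mem (nsmul_mem (ψ _).2 N) (A_mul h3 hv)) (by simp)
  have h5 : ∀ i, α (e i) = α 1 * e i := fun i => by simpa [h2, sub_eq_zero] using h4 i
  refine ⟨α 1, fun x => ?_⟩
  have h6 : (x : S) = x.1 0 • 1 + ∑ i, x.1 i.succ • e i := by
    have he : ∀ i j, e i j = if j = i.succ then 1 else 0 := fun i j => Pi.single_apply ..
    apply ext <;> simp [Fin.sum_univ_succ, one_def, he]
  rw [← h1, h6]
  simp only [map_add, map_smul, map_sum, h5, mul_add, mul_smul_comm, mul_one, Finset.mul_sum]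

theorem ex : ∃ Ψ : AddMonoid.End A →+* S, (∀ ψ (x : A), (ψ x).1 = Ψ ψ * x) ∧
    ∀ s ∈ L, ∃ ψ, Ψ ψ = s := by
  choose Ψ h using ex0
  have u : ∀ (ψ : AddMonoid.End A) (s : S), (∀ x : A, (ψ x).1 = s * x) → Ψ ψ = s := fun ψ s h' => by
    simpa using (h ψ ⟨1, A_of one_mem⟩).symm.trans (h' _)
  refine ⟨⟨⟨⟨Ψ, u _ _ fun _ => (one_mul _).symm⟩, fun ψ φ => u _ _ fun x => ?_⟩,
    u _ _ fun _ => (zero_mul _).symm, fun ψ φ => u _ _ fun x => ?_⟩, h, fun s hs =>
    ⟨((AddMonoidHom.mulLeft s).comp A.subtype).codRestrict A fun x => A_mul hs x.2,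
      u _ _ fun _ => rfl⟩⟩
  · change (ψ (φ x)).1 = Ψ ψ * Ψ φ * x
    rw [h, h, mul_assoc]
  · change (ψ x).1 + (φ x).1 = (Ψ ψ + Ψ φ) * x
    rw [h, h, add_mul]

theorem idem {s : S} {n : ℚ} (hn : n ≠ 0) (h : s * s = n • s) : s = 0 ∨ s = n • 1 := by
  have h0 := congrFun h 0
  have h1 := congrFun h 1
  have h2 := congrFun h 2
  have h3 := congrFun h 3
  have h4 := congrFun h 4
  have h5 := congrFun h 5
  simp only [m0, m1, m2, m3, m4, m5, smul_ap, smul_eq_mul] at h0 h1 h2 h3 h4 h5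
  rcases mul_eq_mul_right_iff.mp h0 with e | e
  · right
    simp only [e, mul_comm _ n, add_eq_left, mul_eq_zero, hn, false_or] at h1 h2 h3
    simp only [e, h1, h2, h3, mul_zero, add_zero, mul_comm _ n, add_eq_left, mul_eq_zero, hn,
      false_or] at h4 h5
    apply ext <;> simp [*, one_def]
  · left
    simp only [e, mul_zero, zero_mul, add_zero, zero_eq_mul, hn, false_or] at h1 h2 h3
    simp only [e, h1, h2, h3, mul_zero, zero_mul, add_zero, zero_eq_mul, hn, false_or] at h4 h5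
    apply ext <;> simp [*]

theorem result : ∃ (A : Type) (_ : AddCommGroup A), TorsionFree A ∧ StronglyIndecomposable A ∧
    Module.rank ℚ (ℚ ⊗[ℤ] A) < 8 ∧ (∃ a b : AddMonoid.End A, a * b ≠ b * a) ∧
    CentrallyEssential (AddMonoid.End A) := by
  obtain ⟨Ψ, h0, h2⟩ := ex
  have h1 : Function.Injective Ψ := fun ψ φ e => AddMonoidHom.ext fun x =>
    Subtype.ext ((h0 ψ x).trans (e ▸ (h0 φ x).symm))
  have hc : ∀ x, Ψ x 1 = 0 → Ψ x 2 = 0 → x ∈ Subring.center _ := fun x e e' =>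
    Subring.mem_center_iff.mpr fun b => h1 (by rw [map_mul, map_mul, cen e e'])
  have tf : TorsionFree A := fun n x hn hx => Subtype.ext (by
    have : (n : ℚ) • x.1 = 0 := by
      rw [Int.cast_smul_eq_zsmul]
      exact congrArg Subtype.val hx
    exact (smul_eq_zero.mp this).resolve_left (by exact_mod_cast hn))
  refine ⟨A, inferInstance, tf, ⟨⟨⟨1, A_of one_mem⟩, 0, fun h => ?_⟩, fun B C n hn hd h => ?_⟩, ?_,
    ?_, fun a ha => ?_⟩
  · simpa [one_def] using congrArg (fun x : A => x.1 0) h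
  · choose b hb c hc' h3 using fun a => AddSubgroup.mem_sup.mp (h a)
    have u : ∀ a b' c', b' ∈ B → c' ∈ C → b' + c' = n • a → b a = b' := fun a b' c' e1 e2 e3 =>
      sub_eq_zero.mp (AddSubgroup.disjoint_def.mp hd (sub_mem (hb a) e1) (by
        rw [show b a - b' = c' - c a by
          rw [sub_eq_sub_iff_add_eq_add, h3, add_comm, e3]]
        exact sub_mem e2 (hc' a)))
    let π : AddMonoid.End A := AddMonoidHom.mk' b fun x y => u _ _ _ (add_mem (hb x) (hb y))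
      (add_mem (hc' x) (hc' y)) (by rw [add_add_add_comm, h3, h3, smul_add])
    have h4 : π * π = n • π := AddMonoidHom.ext fun x =>
      u _ _ 0 (nsmul_mem (hb x) n) (zero_mem _) (add_zero _)
    have h5 : ∀ x : A, n • x = 0 → x = 0 := fun x hx => tf n x (by omega) (by simpa using hx)
    rcases idem (s := Ψ π) (n := n) (by positivity)
      (by rw [← map_mul, h4, map_nsmul, Nat.cast_smul_eq_nsmul]) with e | e
    · refine Or.inl (eq_bot_iff.mpr fun x hx => h5 x ?_)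
      rw [← u x _ 0 (nsmul_mem hx n) (zero_mem _) (add_zero _)]
      exact Subtype.ext ((h0 π x).trans (by simp [e]))
    · refine Or.inr (eq_bot_iff.mpr fun x hx => h5 x ?_)
      rw [← u x 0 _ (zero_mem _) (nsmul_mem hx n) (zero_add _)]
      exact Subtype.ext (Eq.symm ((h0 π x).trans (by simp [e, Nat.cast_smul_eq_nsmul])))
  · rw [(TensorProduct.isBaseChange ℤ A ℚ).rank_eq]
    refine (Submodule.rank_le (AddSubgroup.toIntSubmodule A)).trans_lt ?_
    rw [← IsLocalization.rank_eq ℚ (nonZeroDivisors ℤ) le_rfl,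
      show Module.rank ℚ S = Fintype.card (Fin 6) from rank_fun']
    norm_num
  · obtain ⟨x, hx⟩ := h2 _ (mk_mem 0 1 0 0 0 0)
    obtain ⟨y, hy⟩ := h2 _ (mk_mem 0 0 1 0 0 0)
    refine ⟨x, y, fun h => ?_⟩
    simpa [hx, hy] using congrArg (fun a => Ψ a 4) h
  · have key : ∀ x, Ψ x 1 = 0 → Ψ x 2 = 0 → Ψ (a * x) 1 = 0 → Ψ (a * x) 2 = 0 → a * x ≠ 0 →
        ∃ x ∈ Subring.center _, ∃ y ∈ Subring.center _, x ≠ 0 ∧ y ≠ 0 ∧ a * x = y :=
      fun x e1 e2 e3 e4 e5 => ⟨x, hc x e1 e2, _, hc _ e3 e4, right_ne_zero_of_mul e5, e5, rfl⟩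
    by_cases h3 : Ψ a 0 = 0
    · by_cases h4 : Ψ a 1 = 0 ∧ Ψ a 2 = 0
      · exact key 1 (by simp [one_def]) (by simp [one_def]) (by simp [h4]) (by simp [h4])
          (by simpa)
      · obtain ⟨x, hx⟩ := h2 _ (mk_mem 0 0 0 1 0 0)
        refine key x (by simp [hx]) (by simp [hx]) (by simp [hx, h3])
          (by simp [hx, h3]) fun h => h4 ⟨?_, ?_⟩
        · simpa [hx] using congrArg (fun a => Ψ a 4) h
        · simpa [hx] using congrArg (fun a => Ψ a 5) h
    · obtain ⟨x, hx⟩ := h2 _ (mk_mem 0 0 0 0 1 0)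
      refine key x (by simp [hx]) (by simp [hx]) (by simp [hx]) (by simp [hx]) fun h => h3 ?_
      simpa [hx] using congrArg (fun a => Ψ a 4) h

end Pool.Agent.Results.MP_7bf690_al.Yes
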